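import Mathlib
import Pool.Agent.R170.DataM

/-!
A rep-cube of order 20 whose pieces are the twenty one-sided edge-unfolding nets of the cube.
-/

namespace Pool.Agent.Results.MP_a49afe_co.Maekawa

open Pool.Agent.Helper697.Rep Pool.Agent.R170.Net

/-- There is a polyomino `P` of area `120`, without holes, that folds onto the surface of the cube
of edge `2 √5`, and that is divided into twenty edge-unfolding nets of the unit cube such that
every edge-unfolding net of the unit cube is the same, up to rotation and translation, as exactly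
one of the pieces. -/
theorem result : ∃ P : Finset (ℤ × ℤ), IsPolyomino P ∧ NoHoles P ∧ P.card = 120 ∧
    FoldsOnto (2 * √5) P ∧ ∃ Q : Finset (Finset (ℤ × ℤ)), Q.card = 20 ∧
      (∀ A ∈ Q, ∀ B ∈ Q, A ≠ B → Disjoint A B) ∧ Q.biUnion id = P ∧ (∀ A ∈ Q, IsEdgeNet A) ∧
      ∀ N, IsEdgeNet N → ∃! A, A ∈ Q ∧ SameOneSided N A := by
  have hok := mD_ok
  have hF := (Pool.Agent.R170.Tilt.Dat.fold hok).foldsOnto
  have hk : √((Pool.Agent.R170.Tilt.kk mD.p mD.q : ℤ) : ℝ) = 2 * √5 := by
    have h1 : Pool.Agent.R170.Tilt.kk mD.p mD.q = 20 := by decide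
    rw [h1]
    have h2 : ((20 : ℤ) : ℝ) = 2 ^ 2 * 5 := by norm_num
    rw [h2, Real.sqrt_mul (by positivity), Real.sqrt_sq (by norm_num)]
  rw [hk] at hF
  obtain ⟨Q, hc, hd, hu, he, hQ, hX⟩ := part_of m_nodup m_part
  have hall := m_all
  simp only [List.all_eq_true, List.any_eq_true, List.mem_range, decide_eq_true_eq] at hall
  have hpart := m_part
  simp only [partB, Bool.and_eq_true, List.all_eq_true, decide_eq_true_eq] at hpart
  have hpc := hpart.1
  refine ⟨mD.P.toFinset, Pool.Agent.R170.Tilt.Dat.poly hok, noHoles_of m_holes, ?_, hF, Q, ?_, hd,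
    hu, he, ?_⟩
  · rw [List.toFinset_card_of_nodup m_nodup]
    have := Nat.eq_of_beq_eq_true hpart.2.2.1
    rw [this, m_len]
  · rw [hc, m_len]
  · intro N hN
    obtain ⟨n, hn, hnN⟩ := classify hN
    obtain ⟨i, hi, rfl⟩ := netL_mem n hn
    obtain ⟨x, hx, hxi⟩ := hall i hi
    have hsx := Pc.same (hpc x hx)
    rw [hxi] at hsx
    refine ⟨x.L.toFinset, ⟨hX x hx, hnN.symm.trans hsx⟩, ?_⟩
    rintro A ⟨hA, hNA⟩
    obtain ⟨y, hy, rfl⟩ := hQ A hA
    have hsy := Pc.same (hpc y hy)
    have hyi : i = y.i := net_ne hi (Pc.ilt (hpc y hy)) ((hnN.trans hNA).trans hsy.symm)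
    -- the indices of the pieces are pairwise different
    have hinj : (mX.map Pc.i).Nodup := by decide +kernel
    have : y = x := List.inj_on_of_nodup_map hinj hy hx (by rw [hxi, hyi])
    rw [this]

end Pool.Agent.Results.MP_a49afe_co.Maekawa
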